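import Pool.Agent.helper24.SK.Spec

/-!
# sk:GRP (helper47): grouping real numbers with sum 3
-/

set_option autoImplicit false

namespace Pool.Agent.SK

open Finset ArithmeticFunction MeasureTheory
open Pool.Agent.CH (nit DPb Win Tset ph)
open Pool.Agent.EC (tri vN fN XN TL AdT)
open Pool.Agent.helper85.BVP (tau)
open GD (ks)

/-- adding elements one after the other -/
private theorem GRP_add {ι : Type} [DecidableEq ι] (a : ι → ℝ) (b s t : ℝ) (hst : s < t) (F : Finset ι) :
    (∀ i ∈ F, a i ≤ b) → t ≤ s + ∑ i ∈ F, a i → ∃ G ⊆ F, t ≤ s + ∑ i ∈ G, a i ∧ s + ∑ i ∈ G, a i < t + b := by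
  induction F using Finset.induction_on with
  | empty =>
    intro _ h
    rw [sum_empty] at h
    linarith
  | insert x F hx ih =>
    intro hb h
    by_cases h1 : t ≤ s + ∑ i ∈ F, a i
    · obtain ⟨G, hG, h2, h3⟩ := ih (fun i hi => hb i (mem_insert_of_mem hi)) h1
      exact ⟨G, hG.trans (subset_insert _ _), h2, h3⟩
    · refine ⟨insert x F, Subset.refl _, h, ?_⟩
      rw [sum_insert hx]
      have h2 := hb x (mem_insert_self x F)
      have h3 := not_le.1 h1
      linarith

private theorem GRP_rest {R : ℕ} (a : Fin R → ℝ) (A : Finset (Fin R)) (c : Fin R) (hc : c ∉ A) (hs : ∑ i, a i = 3) :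
    ∑ i ∈ (univ \ A).erase c, a i = 3 - ∑ i ∈ A, a i - a c := by
  have h1 : c ∈ univ \ A := Finset.mem_sdiff.2 ⟨mem_univ _, hc⟩
  have h2 := add_sum_erase (univ \ A) a h1
  have h3 := sum_sdiff (f := a) (subset_univ A)
  linarith

private theorem GRP_max {R : ℕ} (a : Fin R → ℝ) (S : Finset (Fin R)) (hS : 0 < #S) :
    ∃ i ∈ S, (∀ j ∈ S, a j ≤ a i) ∧ #(S.erase i) = #S - 1 ∧ a i + ∑ j ∈ S.erase i, a j = ∑ j ∈ S, a j := by
  obtain ⟨i, hi, h⟩ := exists_max_image S a (card_pos.1 hS)
  exact ⟨i, hi, h, card_erase_of_mem hi, add_sum_erase S a hi⟩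

theorem GRP : GRP_stmt := by
  intro R a η hη h0 h53 hs h5
  have hcard : 5 ≤ #(univ : Finset (Fin R)) := h5.trans (card_le_card (filter_subset _ _))
  obtain ⟨i1, m1, g1, c1, s1⟩ := GRP_max a univ (by omega)
  obtain ⟨i2, m2, g2, c2, s2⟩ := GRP_max a (univ.erase i1) (by omega)
  obtain ⟨i3, m3, g3, c3, s3⟩ := GRP_max a ((univ.erase i1).erase i2) (by omega)
  obtain ⟨i4, m4, g4, c4, s4⟩ := GRP_max a (((univ.erase i1).erase i2).erase i3) (by omega)
  obtain ⟨i5, m5, g5, c5, s5⟩ := GRP_max a ((((univ.erase i1).erase i2).erase i3).erase i4) (by omega)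
  set F := ((((univ.erase i1).erase i2).erase i3).erase i4).erase i5 with hF
  -- the fifth is long
  have hη5 : η ≤ a i5 := by
    by_contra hcon
    have hsub : (univ.filter fun i => η ≤ a i) ⊆ {i1, i2, i3, i4} := by
      intro j hj
      rw [mem_filter] at hj
      by_contra hj'
      simp only [mem_insert, mem_singleton, not_or] at hj'
      have hj5 : j ∈ (((univ.erase i1).erase i2).erase i3).erase i4 := by
        simp only [mem_erase, mem_univ, and_true]
        exact ⟨hj'.2.2.2, hj'.2.2.1, hj'.2.1, hj'.1⟩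
      exact hcon (hj.2.trans (g5 j hj5))
    have h6 := card_le_card hsub
    have h7 : #({i1, i2, i3, i4} : Finset (Fin R)) ≤ 4 := card_le_four
    omega
  simp only [mem_erase, mem_univ, and_true] at m2 m3 m4 m5
  have a12 := g1 i2 (mem_univ _)
  have a23 := g2 i3 (by simp only [mem_erase, mem_univ, and_true]; exact m3.2)
  have a34 := g3 i4 (by simp only [mem_erase, mem_univ, and_true]; exact m4.2)
  have a45 := g4 i5 (by simp only [mem_erase, mem_univ, and_true]; exact m5.2)
  have hFle : ∀ i ∈ F, a i ≤ a i5 := fun i hi => g5 i (mem_of_mem_erase hi)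
  have hF0 : 0 ≤ ∑ i ∈ F, a i := sum_nonneg fun i _ => h0 i
  have h53' := h53 i1
  refine ⟨i5, hη5, ?_⟩
  by_cases hb : 1 < a i1
  · refine ⟨{i1}, ?_, ?_, ?_⟩
    · rw [mem_singleton]
      exact m5.2.2.2
    · rw [sum_singleton]
      exact hb.le
    · rw [GRP_rest a {i1} i5 (by rw [mem_singleton]; exact m5.2.2.2) hs, sum_singleton]
      linarith
  · have hb' := not_lt.1 hb
    have h14 : i1 ≠ i4 := fun h => m4.2.2 h.symm
    by_cases hc : 1 ≤ a i1 + a i4
    · have hnot : i5 ∉ ({i1, i4} : Finset (Fin R)) := by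
        simp only [mem_insert, mem_singleton, not_or]
        exact ⟨m5.2.2.2, m5.1⟩
      refine ⟨{i1, i4}, hnot, ?_, ?_⟩
      · rw [sum_pair h14]
        exact hc
      · rw [GRP_rest a {i1, i4} i5 hnot hs, sum_pair h14]
        linarith
    · have hc' := not_le.1 hc
      have hge : 1 ≤ (a i1 + a i4) + ∑ i ∈ F, a i := by
        by_contra hcon
        have := not_le.1 hcon
        have h50 := h0 i5
        linarith
      obtain ⟨G, hG, h8, h9⟩ := GRP_add a (a i5) (a i1 + a i4) 1 hc' F hFle hge
      have h1G : i1 ∉ G := by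
        intro h
        have := hG h
        rw [hF] at this
        simp only [mem_erase, mem_univ, and_true, ne_eq, not_true_eq_false, and_false] at this
      have h4G : i4 ∉ G := by
        intro h
        have := hG h
        rw [hF] at this
        simp only [mem_erase, mem_univ, and_true, ne_eq, not_true_eq_false, and_false, false_and] at this
      have h5G : i5 ∉ G := by
        intro h
        have := hG h
        rw [hF] at this
        simp only [mem_erase, mem_univ, and_true, ne_eq, not_true_eq_false, and_false, false_and] at this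
      have h4' : i1 ∉ insert i4 G := by
        rw [mem_insert, not_or]
        exact ⟨h14, h1G⟩
      have hsum : ∑ i ∈ insert i1 (insert i4 G), a i = a i1 + a i4 + ∑ i ∈ G, a i := by
        rw [sum_insert h4', sum_insert h4G]
        ring
      have hnot : i5 ∉ insert i1 (insert i4 G) := by
        simp only [mem_insert, not_or]
        exact ⟨m5.2.2.2, m5.1, h5G⟩
      refine ⟨insert i1 (insert i4 G), hnot, ?_, ?_⟩
      · rw [hsum]
        exact h8
      · rw [GRP_rest a _ i5 hnot hs, hsum]
        linarith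

end Pool.Agent.SK
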