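import Pool.Agent.helper24.SK.Spec

/-!
# sk:WID (helper47): the wide triangle against a nonprincipal character
-/

set_option autoImplicit false

namespace Pool.Agent.SK

open Finset ArithmeticFunction MeasureTheory
open Pool.Agent.CH (nit DPb Win Tset ph)
open Pool.Agent.EC (tri vN fN XN TL AdT)
open Pool.Agent.helper85.BVP (tau)
open GD (ks)

private theorem WID_clp (x : ℝ) : 0 ≤ clp x ∧ clp x ≤ 1 := by
  unfold clp
  refine ⟨le_max_left _ _, max_le (by norm_num) (min_le_left _ _)⟩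

private theorem WID_clp_mono {x y : ℝ} (h : x ≤ y) : clp x ≤ clp y := by
  unfold clp
  exact max_le_max le_rfl (min_le_min le_rfl h)

/-- switching the order of summation -/
private theorem WID_swap (f g : ArithmeticFunction ℝ) (G : ℕ → ℂ) (X : ℕ) :
    ∑ m ∈ Ioc 0 X, (((f * g) m : ℝ) : ℂ) * G m =
      ∑ d ∈ Ioc 0 X, ((f d : ℝ) : ℂ) * ∑ n ∈ Ioc 0 (X / d), ((g n : ℝ) : ℂ) * G (d * n) := by
  have h1 : ∀ m ∈ Ioc 0 X, (((f * g) m : ℝ) : ℂ) * G m =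
      ∑ x ∈ m.divisorsAntidiagonal, ((f x.1 : ℝ) : ℂ) * (((g x.2 : ℝ) : ℂ) * G (x.1 * x.2)) := by
    intro m _
    rw [ArithmeticFunction.mul_apply, Complex.ofReal_sum, sum_mul]
    refine sum_congr rfl fun x hx => ?_
    rw [Nat.mem_divisorsAntidiagonal] at hx
    rw [hx.1, Complex.ofReal_mul]
    ring
  rw [sum_congr rfl h1]
  simp_rw [mul_sum]
  rw [sum_sigma', sum_sigma']
  refine sum_nbij' (fun y => ⟨y.2.1, y.2.2⟩) (fun y => ⟨y.1 * y.2, (y.1, y.2)⟩) ?_ ?_ ?_ ?_ ?_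
  · rintro ⟨m, x⟩ hy
    simp only [mem_sigma, mem_Ioc, Nat.mem_divisorsAntidiagonal] at hy ⊢
    obtain ⟨⟨hm, hmX⟩, hx, _⟩ := hy
    have h3 : 0 < x.1 := Nat.pos_of_ne_zero fun h => by
      rw [h, zero_mul] at hx
      omega
    have h4 : 0 < x.2 := Nat.pos_of_ne_zero fun h => by
      rw [h, mul_zero] at hx
      omega
    refine ⟨⟨h3, ?_⟩, h4, ?_⟩
    · have : x.1 ≤ x.1 * x.2 := Nat.le_mul_of_pos_right _ h4
      omega
    · rw [Nat.le_div_iff_mul_le h3, mul_comm]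
      omega
  · rintro ⟨d, n⟩ hy
    simp only [mem_sigma, mem_Ioc, Nat.mem_divisorsAntidiagonal] at hy ⊢
    obtain ⟨⟨hd, hdX⟩, hn, hnX⟩ := hy
    rw [Nat.le_div_iff_mul_le hd, mul_comm] at hnX
    have : 0 < d * n := Nat.mul_pos hd hn
    exact ⟨⟨this, hnX⟩, trivial, this.ne'⟩
  · rintro ⟨m, x⟩ hy
    simp only [mem_sigma, mem_Ioc, Nat.mem_divisorsAntidiagonal] at hy
    obtain ⟨_, hx, _⟩ := hy
    subst hx
    rfl
  · rintro ⟨d, n⟩ _
    rfl
  · rintro ⟨m, x⟩ _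
    rfl

private theorem WID_inner (h1 : TRB_stmt) (h2 : ABL_stmt) (v δ : ℝ) (hδ : 0 < δ) (c : ℕ → ℂ) (d b : ℕ) (K : ℝ)
    (hd : 1 ≤ d) (hK : ∀ u ≤ b, ‖∑ n ∈ Ioc 0 u, c n‖ ≤ K) :
    ‖∑ n ∈ Ioc 0 b, c n * ((tr0 v δ (Real.log ((d * n : ℕ) : ℝ)) : ℝ) : ℂ)‖ ≤ 4 * K := by
  have hK0 : 0 ≤ K := (norm_nonneg _).trans (hK 0 (Nat.zero_le _))
  have h6 := (h1 v δ hδ).2.2.2.2.2.1
  have hmono : ∀ s : ℝ, ∀ m n, 0 < m → m ≤ n → n ≤ b →
      clp ((Real.log ((d * m : ℕ) : ℝ) - v) / δ + s) ≤ clp ((Real.log ((d * n : ℕ) : ℝ) - v) / δ + s) := by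
    intro s m n hm hmn _
    apply WID_clp_mono
    have h3 : (0 : ℝ) < ((d * m : ℕ) : ℝ) := by exact_mod_cast Nat.mul_pos hd hm
    have h4 : ((d * m : ℕ) : ℝ) ≤ ((d * n : ℕ) : ℝ) := by exact_mod_cast Nat.mul_le_mul_left d hmn
    have h5 := Real.log_le_log h3 h4
    gcongr
  have key : ∀ s : ℝ, ‖∑ n ∈ Ioc 0 b, c n *
      ((clp ((Real.log ((d * n : ℕ) : ℝ) - v) / δ + s) : ℝ) : ℂ)‖ ≤ 2 * K := by
    intro s
    refine (h2 c (fun n => clp ((Real.log ((d * n : ℕ) : ℝ) - v) / δ + s)) 0 b K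
      (fun n => (WID_clp _).1) (hmono s) hK).trans ?_
    have := (WID_clp ((Real.log ((d * b : ℕ) : ℝ) - v) / δ + s)).2
    have h0 := (WID_clp ((Real.log ((d * b : ℕ) : ℝ) - v) / δ + s)).1
    nlinarith
  have hsum : ∑ n ∈ Ioc 0 b, c n * ((tr0 v δ (Real.log ((d * n : ℕ) : ℝ)) : ℝ) : ℂ) =
      ∑ n ∈ Ioc 0 b, c n * ((clp ((Real.log ((d * n : ℕ) : ℝ) - v) / δ + 1) : ℝ) : ℂ) -
      ∑ n ∈ Ioc 0 b, c n * ((clp ((Real.log ((d * n : ℕ) : ℝ) - v) / δ + 0) : ℝ) : ℂ) := by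
    rw [← sum_sub_distrib]
    refine sum_congr rfl fun n _ => ?_
    rw [h6, add_zero, Complex.ofReal_sub, mul_sub]
  rw [hsum]
  refine (norm_sub_le _ _).trans ?_
  have k1 := key 1
  have k0 := key 0
  linarith

/-- the product of the prime indicators -/
private theorem WID_prod {r : ℕ} (N : ℕ) (hN : 1 ≤ N) (a b : Fin r → ℝ) (s : Finset (Fin r)) :
    (∀ d, 0 ≤ (∏ i ∈ s, cel ((N : ℝ) ^ a i) ((N : ℝ) ^ b i)) d) ∧
    (∀ d : ℕ, (∏ i ∈ s, cel ((N : ℝ) ^ a i) ((N : ℝ) ^ b i)) d ≠ 0 → (d : ℝ) ≤ ∏ i ∈ s, (N : ℝ) ^ b i) ∧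
    (∀ X : ℕ, ∑ d ∈ Ioc 0 X, (∏ i ∈ s, cel ((N : ℝ) ^ a i) ((N : ℝ) ^ b i)) d / (d : ℝ) ≤
      (1 + Real.log X) ^ #s) := by
  induction s using Finset.induction_on with
  | empty =>
    simp only [prod_empty, card_empty, pow_zero]
    refine ⟨fun d => ?_, fun d hd => ?_, fun X => ?_⟩
    · rw [ArithmeticFunction.one_apply]
      split_ifs <;> norm_num
    · rw [ArithmeticFunction.one_apply] at hd
      by_cases h : d = 1
      · rw [h]
        norm_num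
      · rw [if_neg h] at hd
        exact absurd rfl hd
    · have h : ∀ d ∈ Ioc 0 X, (1 : ArithmeticFunction ℝ) d / (d : ℝ) = if d = 1 then (1 : ℝ) else 0 := by
        intro d _
        rw [ArithmeticFunction.one_apply]
        by_cases h : d = 1
        · rw [if_pos h, h]
          norm_num
        · rw [if_neg h, zero_div]
      rw [sum_congr rfl h, sum_ite_eq']
      split_ifs <;> norm_num
  | insert i s hi ih =>
    obtain ⟨ih1, ih2, ih3⟩ := ih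
    rw [prod_insert hi]
    set f := cel ((N : ℝ) ^ a i) ((N : ℝ) ^ b i) with hf
    set P := ∏ i ∈ s, cel ((N : ℝ) ^ a i) ((N : ℝ) ^ b i) with hP
    have hfd : ∀ d, f d = if d.Prime ∧ (N : ℝ) ^ a i ≤ (d : ℝ) ∧ (d : ℝ) < (N : ℝ) ^ b i then 1 else 0 := by
      intro d
      rw [hf]
      rfl
    have hf0 : ∀ d, 0 ≤ f d := by
      intro d
      rw [hfd]
      split_ifs <;> norm_num
    have hf1 : ∀ d, f d ≤ 1 := by
      intro d
      rw [hfd]
      split_ifs <;> norm_num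
    refine ⟨fun d => ?_, fun d hd => ?_, fun X => ?_⟩
    · rw [ArithmeticFunction.mul_apply]
      exact sum_nonneg fun x _ => mul_nonneg (hf0 _) (ih1 _)
    · rw [ArithmeticFunction.mul_apply] at hd
      obtain ⟨x, hx, hx0⟩ := exists_ne_zero_of_sum_ne_zero hd
      rw [Nat.mem_divisorsAntidiagonal] at hx
      have h1 : f x.1 ≠ 0 := left_ne_zero_of_mul hx0
      have h2 : P x.2 ≠ 0 := right_ne_zero_of_mul hx0
      have h3 := ih2 _ h2
      have h4 : (x.1 : ℝ) ≤ (N : ℝ) ^ b i := by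
        rw [hfd] at h1
        by_contra hcon
        apply h1
        rw [if_neg]
        intro h
        exact hcon h.2.2.le
      rw [prod_insert hi, ← hx.1, Nat.cast_mul]
      exact mul_le_mul h4 h3 (Nat.cast_nonneg _) (by positivity)
    · rw [card_insert_of_notMem hi, pow_succ']
      have hlog : 0 ≤ Real.log (X : ℝ) := Real.log_natCast_nonneg X
      have hsw : ∑ d ∈ Ioc 0 X, (f * P) d / (d : ℝ) =
          ∑ d ∈ Ioc 0 X, f d / (d : ℝ) * ∑ n ∈ Ioc 0 (X / d), P n / (n : ℝ) := by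
        have h := WID_swap f P (fun m => ((1 / (m : ℝ) : ℝ) : ℂ)) X
        have h' : ((∑ d ∈ Ioc 0 X, (f * P) d / (d : ℝ) : ℝ) : ℂ) =
            ((∑ d ∈ Ioc 0 X, f d / (d : ℝ) * ∑ n ∈ Ioc 0 (X / d), P n / (n : ℝ) : ℝ) : ℂ) := by
          rw [Complex.ofReal_sum, Complex.ofReal_sum]
          refine Eq.trans (sum_congr rfl fun d _ => ?_) (h.trans (sum_congr rfl fun d _ => ?_))
          · rw [← Complex.ofReal_mul]
            congr 1
            ring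
          · rw [Complex.ofReal_mul, Complex.ofReal_sum, mul_sum, mul_sum]
            refine sum_congr rfl fun n _ => ?_
            rw [← Complex.ofReal_mul, ← Complex.ofReal_mul, ← Complex.ofReal_mul]
            congr 1
            rw [Nat.cast_mul]
            simp only [div_eq_mul_inv, mul_inv, one_mul]
            ring
        exact_mod_cast h'
      rw [hsw]
      have hS : ∀ d ∈ Ioc 0 X, f d / (d : ℝ) * ∑ n ∈ Ioc 0 (X / d), P n / (n : ℝ) ≤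
          1 / (d : ℝ) * (1 + Real.log X) ^ #s := by
        intro d hd
        rw [mem_Ioc] at hd
        have hd0 : (0 : ℝ) < d := by exact_mod_cast hd.1
        refine mul_le_mul ?_ ?_ ?_ (by positivity)
        · gcongr
          exact hf1 d
        · refine le_trans ?_ (ih3 X)
          refine sum_le_sum_of_subset_of_nonneg ?_ ?_
          · exact Ioc_subset_Ioc_right (Nat.div_le_self X d)
          · intro n _ _
            exact div_nonneg (ih1 n) (Nat.cast_nonneg n)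
        · exact sum_nonneg fun n _ => div_nonneg (ih1 n) (Nat.cast_nonneg n)
      refine (sum_le_sum hS).trans ?_
      rw [← sum_mul]
      refine mul_le_mul_of_nonneg_right ?_ (by positivity)
      have hh := harmonic_le_one_add_log X
      rw [harmonic_eq_sum_Icc] at hh
      push_cast at hh
      have : ∑ d ∈ Ioc 0 X, 1 / (d : ℝ) = ∑ i ∈ Icc 1 X, ((i : ℝ))⁻¹ := by
        refine sum_congr ?_ fun d _ => one_div _
        ext d
        simp only [mem_Ioc, mem_Icc]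
        omega
      rw [this]
      exact hh

theorem WID (h1 : TRB_stmt) (h2 : ABL_stmt) (h3 : TLD_stmt) (h4 : PSR_stmt) : WID_stmt := by
  intro r a b hab A Bq
  have hβ : ∑ i, b i < 3 := by
    rcases hab with h | h
    · subst h
      rw [Finset.univ_eq_empty, sum_empty]
      norm_num
    · exact h.2.2.2
  obtain ⟨N1, hN1⟩ := h4 (A + r + 1) Bq ((3 - ∑ i, b i) / 2) (by linarith)
  refine ⟨max N1 (⌈Real.exp (256 * 9 ^ r)⌉₊ + 1), ?_⟩
  intro N hN v δ hδ q hq hqL χ hχ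
  have hNN1 : N1 ≤ N := (le_max_left _ _).trans hN
  have hNe : ⌈Real.exp (256 * 9 ^ r)⌉₊ + 1 ≤ N := (le_max_right _ _).trans hN
  have hN1' : 1 ≤ N := by omega
  have hNR : (1 : ℝ) ≤ N := by exact_mod_cast hN1'
  have hL : 256 * 9 ^ r ≤ Real.log N := by
    rw [Real.le_log_iff_exp_le (by linarith)]
    have h5 : Real.exp (256 * 9 ^ r) ≤ ⌈Real.exp (256 * 9 ^ r)⌉₊ := Nat.le_ceil _
    have h6 : ((⌈Real.exp (256 * 9 ^ r)⌉₊ : ℕ) : ℝ) ≤ N := by
      exact_mod_cast (Nat.le_succ _).trans hNe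
    linarith
  have h9r : (1 : ℝ) ≤ 9 ^ r := one_le_pow₀ (by norm_num)
  have hL1 : (1 : ℝ) ≤ Real.log N := by linarith
  have hL0 : (0 : ℝ) < Real.log N := by linarith
  set L := Real.log N with hLdef
  set P := ∏ i, cel ((N : ℝ) ^ a i) ((N : ℝ) ^ b i) with hP
  obtain ⟨hP0, hP1, hP2⟩ := WID_prod N hN1' a b univ
  rw [← hP] at hP0 hP1 hP2
  have hXR : ((64 * N ^ 3 : ℕ) : ℝ) = 64 * (N : ℝ) ^ 3 := by push_cast; ring
  -- the sum as a double sum
  have hsum : ∑ m ∈ Ioc 0 (64 * N ^ 3), ((TL N a b m : ℝ) : ℂ) * χ m * ((tr0 v δ (Real.log m) : ℝ) : ℂ) =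
      ∑ d ∈ Ioc 0 (64 * N ^ 3), ((P d : ℝ) : ℂ) * (χ d * ∑ n ∈ Ioc 0 (64 * N ^ 3 / d),
        ((vonMangoldt n : ℂ) * χ n) * ((tr0 v δ (Real.log ((d * n : ℕ) : ℝ)) : ℝ) : ℂ)) := by
    have h5 : ∀ m ∈ Ioc 0 (64 * N ^ 3), ((TL N a b m : ℝ) : ℂ) * χ m * ((tr0 v δ (Real.log m) : ℝ) : ℂ) =
        (((P * vonMangoldt) m : ℝ) : ℂ) * (χ m * ((tr0 v δ (Real.log m) : ℝ) : ℂ)) := by
      intro m hm
      rw [mem_Ioc] at hm
      rw [h3 r N a b m hm.1, mul_assoc]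
    rw [sum_congr rfl h5, WID_swap P vonMangoldt (fun m => χ m * ((tr0 v δ (Real.log m) : ℝ) : ℂ))]
    refine sum_congr rfl fun d _ => ?_
    congr 1
    rw [mul_sum]
    refine sum_congr rfl fun n _ => ?_
    simp only [Nat.cast_mul, map_mul]
    ring
  rw [hsum]
  refine (norm_sum_le _ _).trans ?_
  have hterm : ∀ d ∈ Ioc 0 (64 * N ^ 3), ‖((P d : ℝ) : ℂ) * (χ d * ∑ n ∈ Ioc 0 (64 * N ^ 3 / d),
      ((vonMangoldt n : ℂ) * χ n) * ((tr0 v δ (Real.log ((d * n : ℕ) : ℝ)) : ℝ) : ℂ))‖ ≤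
      (256 * (N : ℝ) ^ 3 / L ^ (A + r + 1)) * (P d / (d : ℝ)) := by
    intro d hd
    rw [mem_Ioc] at hd
    have hd0 : (0 : ℝ) < d := by exact_mod_cast hd.1
    have hd1 : (1 : ℝ) ≤ d := by exact_mod_cast hd.1
    by_cases hPd : P d = 0
    · rw [hPd, Complex.ofReal_zero, zero_mul, norm_zero, zero_div, mul_zero]
    have hdβ := hP1 d hPd
    rw [← Real.rpow_sum_of_pos (by linarith : (0 : ℝ) < N)] at hdβ
    have hU1 : (N : ℝ) ^ ((3 - ∑ i, b i) / 2) ≤ 64 * (N : ℝ) ^ 3 / d := by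
      rw [le_div_iff₀ hd0]
      have h5 : (N : ℝ) ^ ((3 - ∑ i, b i) / 2) * d ≤
          (N : ℝ) ^ ((3 - ∑ i, b i) / 2) * (N : ℝ) ^ (∑ i, b i) :=
        mul_le_mul_of_nonneg_left hdβ (by positivity)
      rw [← Real.rpow_add (by linarith)] at h5
      have h6 : (N : ℝ) ^ ((3 - ∑ i, b i) / 2 + ∑ i, b i) ≤ (N : ℝ) ^ (3 : ℝ) :=
        Real.rpow_le_rpow_of_exponent_le hNR (by linarith)
      have h7 : (N : ℝ) ^ (3 : ℝ) = (N : ℝ) ^ 3 := by
        rw [← Real.rpow_natCast]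
        norm_num
      rw [h7] at h6
      have h8 : 0 ≤ (N : ℝ) ^ 3 := by positivity
      linarith
    have hU2 : 64 * (N : ℝ) ^ 3 / d ≤ 64 * (N : ℝ) ^ 3 := div_le_self (by positivity) hd1
    have hinner : ‖∑ n ∈ Ioc 0 (64 * N ^ 3 / d), ((vonMangoldt n : ℂ) * χ n) *
        ((tr0 v δ (Real.log ((d * n : ℕ) : ℝ)) : ℝ) : ℂ)‖ ≤ 4 * (64 * (N : ℝ) ^ 3 / d / L ^ (A + r + 1)) := by
      refine WID_inner h1 h2 v δ hδ (fun n => (vonMangoldt n : ℂ) * χ n) d _ _ hd.1 ?_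
      intro u hu
      have hu' : (u : ℝ) ≤ 64 * (N : ℝ) ^ 3 / d := by
        rw [← hXR]
        exact (by exact_mod_cast hu : (u : ℝ) ≤ ((64 * N ^ 3 / d : ℕ) : ℝ)).trans Nat.cast_div_le
      exact (hN1 N hNN1 _ hU1 hU2 u hu').1 q hq hqL χ hχ
    rw [norm_mul, norm_mul, Complex.norm_real, Real.norm_of_nonneg (hP0 d)]
    have hχ1 : ‖χ (d : ZMod q)‖ ≤ 1 := DirichletCharacter.norm_le_one χ _
    have h10 : ‖χ (d : ZMod q)‖ * ‖∑ n ∈ Ioc 0 (64 * N ^ 3 / d), ((vonMangoldt n : ℂ) * χ n) *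
        ((tr0 v δ (Real.log ((d * n : ℕ) : ℝ)) : ℝ) : ℂ)‖ ≤ 1 * (4 * (64 * (N : ℝ) ^ 3 / d / L ^ (A + r + 1))) :=
      mul_le_mul hχ1 hinner (norm_nonneg _) zero_le_one
    refine (mul_le_mul_of_nonneg_left h10 (hP0 d)).trans (le_of_eq ?_)
    field_simp
    ring
  refine (sum_le_sum hterm).trans ?_
  rw [← mul_sum]
  have hS := hP2 (64 * N ^ 3)
  rw [card_univ, Fintype.card_fin, hXR] at hS
  have hlogX : 1 + Real.log (64 * (N : ℝ) ^ 3) ≤ 9 * L := by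
    rw [Real.log_mul (by norm_num) (by positivity), Real.log_pow]
    have h64 : Real.log 64 ≤ 5 := by
      have : (64 : ℝ) = 2 ^ 6 := by norm_num
      rw [this, Real.log_pow]
      have := Real.log_two_lt_d9
      push_cast
      linarith
    push_cast
    rw [← hLdef]
    linarith
  have hlog0 : 0 ≤ 1 + Real.log (64 * (N : ℝ) ^ 3) := by
    have : 0 ≤ Real.log (64 * (N : ℝ) ^ 3) := Real.log_nonneg (by nlinarith [pow_le_pow_left₀ zero_le_one hNR 3])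
    linarith
  have hS' : ∑ d ∈ Ioc 0 (64 * N ^ 3), P d / (d : ℝ) ≤ (9 * L) ^ r :=
    hS.trans (pow_le_pow_left₀ hlog0 hlogX r)
  refine (mul_le_mul_of_nonneg_left hS' (by positivity)).trans ?_
  rw [mul_pow]
  have hpow : L ^ (A + r + 1) = L ^ A * L ^ r * L := by ring
  rw [hpow]
  rw [div_mul_eq_mul_div, div_le_div_iff₀ (by positivity) (by positivity)]
  have hfin : 256 * 9 ^ r * (L ^ r * L ^ A * (N : ℝ) ^ 3) ≤ L * (L ^ r * L ^ A * (N : ℝ) ^ 3) :=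
    mul_le_mul_of_nonneg_right hL (by positivity)
  calc 256 * (N : ℝ) ^ 3 * (9 ^ r * L ^ r) * L ^ A = 256 * 9 ^ r * (L ^ r * L ^ A * (N : ℝ) ^ 3) := by ring
    _ ≤ L * (L ^ r * L ^ A * (N : ℝ) ^ 3) := hfin
    _ = (N : ℝ) ^ 3 * (L ^ A * L ^ r * L) := by ring

end Pool.Agent.SK
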